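import Pool.Agent.Lib.MP_631487_nt.Main

/-!
# The unconditional averaged inequality
-/

open Finset

namespace MP631487

theorem averaged (a : ℕ → ℤ) (x : ℝ) (hx : 1 ≤ x) (P : Finset ℕ) (hPne : P.Nonempty)
    (hP : ∀ l ∈ P, l.Prime ∧ 15 ≤ l) (hprod : ((∏ l ∈ P, l : ℕ) : ℝ) ≤ x) (A : ℤ) :
    (#((range (⌊x⌋₊ + 1)).filter fun p => p.Prime ∧ a p = A) : ℝ)
      ≤ 4 / #P * ∑ l ∈ P, (#((range (⌊x⌋₊ + 1)).filter fun p => p.Prime ∧ (l : ℤ) ∣ a p - A ∧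
        jacobiSym (a p ^ 2 - 4 * (p : ℤ)) l = 1) : ℝ) + 4 * x * (13 / 14 : ℝ) ^ #P := by
  classical
  set X := ⌊x⌋₊ + 1 with hXdef
  set S := (range X).filter fun p => p.Prime ∧ a p = A with hS
  set Bad := (range X).filter fun n => 4 * #(splitSet P A n) < #P with hBad
  have h1 : #S ≤ #(S \ Bad) + #Bad := Finset.card_le_card_sdiff_add_card (s := S) (t := Bad)
  have h2 : #P * #(S \ Bad) ≤ 4 * ∑ p ∈ S \ Bad, #(splitSet P A p) := by
    rw [Finset.mul_sum, mul_comm, ← smul_eq_mul, ← Finset.sum_const]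
    refine Finset.sum_le_sum fun p hp => ?_
    rw [Finset.mem_sdiff, hS, hBad, mem_filter, mem_filter] at hp
    by_contra hcon
    exact hp.2 ⟨hp.1.1, not_le.mp hcon⟩
  have h3 : ∑ p ∈ S \ Bad, #(splitSet P A p)
      = ∑ l ∈ P, #((S \ Bad).filter fun p : ℕ => jacobiSym (A ^ 2 - 4 * (p : ℤ)) l = 1) := by
    simp only [splitSet, Finset.card_filter]
    exact Finset.sum_comm
  have h4 : ∑ l ∈ P, #((S \ Bad).filter fun p : ℕ => jacobiSym (A ^ 2 - 4 * (p : ℤ)) l = 1)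
      ≤ ∑ l ∈ P, #((range X).filter fun p : ℕ => p.Prime ∧ (l : ℤ) ∣ a p - A ∧
        jacobiSym (a p ^ 2 - 4 * (p : ℤ)) l = 1) := by
    refine Finset.sum_le_sum fun l _ => Finset.card_le_card fun p hp => ?_
    rw [mem_filter, Finset.mem_sdiff, hS, mem_filter] at hp
    rw [mem_filter]
    obtain ⟨⟨⟨hp1, hp2, hp3⟩, _⟩, hp4⟩ := hp
    refine ⟨hp1, hp2, ?_, ?_⟩
    · rw [hp3, sub_self]; exact dvd_zero _
    · rw [hp3]; exact hp4
  have hPpos : (0 : ℝ) < #P := by exact_mod_cast hPne.card_pos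
  set T : ℝ := ∑ l ∈ P, (#((range X).filter fun p : ℕ => p.Prime ∧ (l : ℤ) ∣ a p - A ∧
        jacobiSym (a p ^ 2 - 4 * (p : ℤ)) l = 1) : ℝ) with hT
  have h5 : (#P : ℝ) * #(S \ Bad) ≤ 4 * T := by
    have h6 : #P * #(S \ Bad) ≤ 4 * ∑ l ∈ P, #((range X).filter fun p : ℕ =>
        p.Prime ∧ (l : ℤ) ∣ a p - A ∧ jacobiSym (a p ^ 2 - 4 * (p : ℤ)) l = 1) :=
      h2.trans (Nat.mul_le_mul_left 4 (h3.le.trans h4))
    rw [hT]
    exact_mod_cast h6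
  have h6 : (#(S \ Bad) : ℝ) ≤ 4 / #P * T := by
    rw [div_mul_eq_mul_div, le_div_iff₀ hPpos]
    linarith
  have hXr : (X : ℝ) ≤ 2 * x := by
    rw [hXdef]
    push_cast
    have := Nat.floor_le (show (0 : ℝ) ≤ x by linarith)
    linarith
  have h7 : ∏ l ∈ P, l ≤ X := (Nat.le_floor hprod).trans (Nat.le_succ _)
  have h8 : (#Bad : ℝ) ≤ 4 * x * (13 / 14 : ℝ) ^ #P := by
    refine (card_bad_le P hP A X h7).trans ?_
    exact mul_le_mul_of_nonneg_right (by linarith) (by positivity)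
  have h9 : (#S : ℝ) ≤ #(S \ Bad) + #Bad := by exact_mod_cast h1
  linarith

end MP631487
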