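import Pool.Agent.Lib.MP_631487_nt.Split

/-!
# Averaging over the auxiliary primes
-/

open Finset Filter Topology

namespace MP631487

/-- the primes in `(Y / 8, Y]` -/
noncomputable def PP (Y : ℝ) : Finset ℕ :=
  (range (⌊Y⌋₊ + 1)).filter fun l => l.Prime ∧ Y / 8 < l

lemma mem_PP {Y : ℝ} (hY : 0 ≤ Y) {l : ℕ} : l ∈ PP Y ↔ l.Prime ∧ Y / 8 < l ∧ (l : ℝ) ≤ Y := by
  unfold PP
  rw [mem_filter, mem_range, Nat.lt_succ_iff, Nat.le_floor_iff hY]
  tauto

lemma theta_sub_le {Y : ℝ} (hY : 0 ≤ Y) :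
    Chebyshev.theta Y - Chebyshev.theta (Y / 8) ≤ #(PP Y) * Real.log Y := by
  unfold Chebyshev.theta
  set A := (Ioc 0 ⌊Y⌋₊).filter Nat.Prime with hA
  set B := (Ioc 0 ⌊Y / 8⌋₊).filter Nat.Prime with hB
  have hBA : B ⊆ A := by
    intro p hp
    rw [hB, mem_filter, mem_Ioc] at hp
    rw [hA, mem_filter, mem_Ioc]
    exact ⟨⟨hp.1.1, hp.1.2.trans (Nat.floor_le_floor (by linarith))⟩, hp.2⟩
  have h1 : ∑ p ∈ A, Real.log p - ∑ p ∈ B, Real.log p = ∑ p ∈ A \ B, Real.log p := by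
    rw [← Finset.sum_sdiff hBA]
    ring
  rw [h1]
  have h2 : A \ B ⊆ PP Y := by
    intro p hp
    rw [Finset.mem_sdiff, hA, hB, mem_filter, mem_filter, mem_Ioc, mem_Ioc] at hp
    rw [mem_PP hY]
    refine ⟨hp.1.2, ?_, (Nat.le_floor_iff hY).mp hp.1.1.2⟩
    by_contra hcon
    exact hp.2 ⟨⟨hp.1.1.1, Nat.le_floor (not_lt.mp hcon)⟩, hp.1.2⟩
  calc ∑ p ∈ A \ B, Real.log p ≤ ∑ p ∈ PP Y, Real.log p :=
        Finset.sum_le_sum_of_subset_of_nonneg h2 fun p _ _ => Real.log_natCast_nonneg p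
    _ ≤ ∑ _p ∈ PP Y, Real.log Y := by
        refine Finset.sum_le_sum fun p hp => ?_
        rw [mem_PP hY] at hp
        exact Real.log_le_log (by exact_mod_cast hp.1.pos) hp.2.2
    _ = #(PP Y) * Real.log Y := by rw [Finset.sum_const, nsmul_eq_mul]

lemma log_le_sqrt {e : ℝ} (he : 0 < e) : ∀ᶠ Y : ℝ in atTop, Real.log Y ≤ e * √Y := by
  have h := (isLittleO_log_rpow_atTop (show (0 : ℝ) < 1 / 2 by norm_num)).bound he
  filter_upwards [h, eventually_ge_atTop (1 : ℝ)] with Y h1 h2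
  rw [← Real.sqrt_eq_rpow, Real.norm_of_nonneg (Real.sqrt_nonneg Y),
    Real.norm_of_nonneg (Real.log_nonneg h2)] at h1
  exact h1

lemma card_PP : ∀ᶠ Y : ℝ in atTop, √Y ≤ #(PP Y) := by
  filter_upwards [log_le_sqrt (show (0 : ℝ) < 1 / 20 by norm_num), eventually_ge_atTop (100 : ℝ)]
    with Y h1 h2
  have h3 := theta_sub_le (show (0 : ℝ) ≤ Y by linarith)
  have h4 := Chebyshev.theta_ge' (show (1 : ℝ) ≤ Y by linarith)
  have h5 := Chebyshev.theta_le_log4_mul_x (show (0 : ℝ) ≤ Y / 8 by linarith)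
  have h6 : Real.log 4 = 2 * Real.log 2 := by
    rw [show (4 : ℝ) = 2 ^ 2 by norm_num, Real.log_pow]; norm_num
  have h7 := Real.log_two_gt_d9
  have h8 := Real.log_two_lt_d9
  set t := √Y with ht
  have h9 : t * t = Y := Real.mul_self_sqrt (by linarith)
  have h10 : 10 ≤ t := by
    rw [ht]
    exact Real.le_sqrt_of_sq_le (by linarith)
  have h11 : Real.log (Y + 2) ≤ 2 * Real.log Y := by
    have : 2 * Real.log Y = Real.log (Y ^ 2) := by rw [Real.log_pow]; norm_num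
    rw [this]
    exact Real.log_le_log (by linarith) (by nlinarith)
  have h12 : 0 ≤ Real.log Y := Real.log_nonneg (by linarith)
  have h13 : t * Real.log Y ≤ Y / 20 := by
    have := mul_le_mul_of_nonneg_left h1 (show (0 : ℝ) ≤ t by linarith)
    nlinarith
  rw [h6] at h5
  have h14 : Y / 4 ≤ #(PP Y) * Real.log Y := by nlinarith
  have h15 : (0 : ℝ) ≤ #(PP Y) := Nat.cast_nonneg _
  have h16 : Y / 4 ≤ #(PP Y) * (1 / 20 * t) := h14.trans (mul_le_mul_of_nonneg_left h1 h15)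
  have h17 : 5 * t * t ≤ #(PP Y) * t := by nlinarith
  have h18 : 5 * t ≤ #(PP Y) := le_of_mul_le_mul_right h17 (by linarith)
  linarith

lemma finite_step (a : ℕ → ℤ) (A : ℤ) (X : ℕ) (P : Finset ℕ) (hP : P.Nonempty) (B : ℝ)
    (hB : ∀ l ∈ P, (#((range X).filter fun p : ℕ => p.Prime ∧ (l : ℤ) ∣ a p - A ∧
      jacobiSym (a p ^ 2 - 4 * (p : ℤ)) l = 1) : ℝ) ≤ B) :
    (#((range X).filter fun p => p.Prime ∧ a p = A) : ℝ)
      ≤ 4 * B + #((range X).filter fun n => 4 * #(splitSet P A n) < #P) := by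
  classical
  set S := (range X).filter fun p => p.Prime ∧ a p = A with hS
  set Bad := (range X).filter fun n => 4 * #(splitSet P A n) < #P with hBad
  have h1 : #S ≤ #(S \ Bad) + #Bad := by
    have := Finset.card_le_card_sdiff_add_card (s := S) (t := Bad)
    exact this
  have h2 : #P * #(S \ Bad) ≤ 4 * ∑ p ∈ S \ Bad, #(splitSet P A p) := by
    rw [Finset.mul_sum, mul_comm, ← smul_eq_mul, ← Finset.sum_const]
    refine Finset.sum_le_sum fun p hp => ?_
    rw [Finset.mem_sdiff, hS, hBad, mem_filter, mem_filter] at hp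
    by_contra hcon
    exact hp.2 ⟨hp.1.1, not_le.mp hcon⟩
  have h3 : ∑ p ∈ S \ Bad, #(splitSet P A p)
      = ∑ l ∈ P, #((S \ Bad).filter fun p : ℕ => jacobiSym (A ^ 2 - 4 * (p : ℤ)) l = 1) := by
    simp only [splitSet, Finset.card_filter]
    exact Finset.sum_comm
  have h4 : ∑ l ∈ P, (#((S \ Bad).filter fun p : ℕ => jacobiSym (A ^ 2 - 4 * (p : ℤ)) l = 1) : ℝ)
      ≤ #P * B := by
    rw [← nsmul_eq_mul, ← Finset.sum_const]
    refine Finset.sum_le_sum fun l hl => le_trans ?_ (hB l hl)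
    norm_cast
    refine Finset.card_le_card fun p hp => ?_
    rw [mem_filter, Finset.mem_sdiff, hS, mem_filter] at hp
    rw [mem_filter]
    obtain ⟨⟨⟨hp1, hp2, hp3⟩, _⟩, hp4⟩ := hp
    refine ⟨hp1, hp2, ?_, ?_⟩
    · rw [hp3, sub_self]; exact dvd_zero _
    · rw [hp3]; exact hp4
  have hPpos : (0 : ℝ) < #P := by exact_mod_cast hP.card_pos
  have h5 : (#P : ℝ) * #(S \ Bad) ≤ #P * (4 * B) := by
    have h6 : (#P : ℝ) * #(S \ Bad) ≤ 4 * ((∑ p ∈ S \ Bad, #(splitSet P A p) : ℕ) : ℝ) := by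
      exact_mod_cast h2
    rw [h3] at h6
    push_cast at h6
    linarith
  have h6 := le_of_mul_le_mul_left h5 hPpos
  have h7 : (#S : ℝ) ≤ #(S \ Bad) + #Bad := by exact_mod_cast h1
  linarith

lemma prod_PP_le {Y : ℝ} (hY : 0 ≤ Y) : ((∏ l ∈ PP Y, l : ℕ) : ℝ) ≤ Real.exp (Y * Real.log 4) := by
  have h1 : (∏ l ∈ PP Y, l) ∣ primorial ⌊Y⌋₊ := by
    unfold primorial
    refine Finset.prod_dvd_prod_of_subset _ _ _ ?_
    intro l hl
    unfold PP at hl
    rw [mem_filter] at hl ⊢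
    exact ⟨hl.1, hl.2.1⟩
  have h2 : ∏ l ∈ PP Y, l ≤ 4 ^ ⌊Y⌋₊ :=
    (Nat.le_of_dvd (primorial_pos _) h1).trans (primorial_le_four_pow _)
  calc ((∏ l ∈ PP Y, l : ℕ) : ℝ) ≤ (4 : ℝ) ^ ⌊Y⌋₊ := by exact_mod_cast h2
    _ = Real.exp (⌊Y⌋₊ * Real.log 4) := by
        rw [← Real.rpow_natCast, Real.rpow_def_of_pos (by norm_num), mul_comm]
    _ ≤ Real.exp (Y * Real.log 4) := by
        apply Real.exp_le_exp.mpr
        exact mul_le_mul_of_nonneg_right (Nat.floor_le hY) (Real.log_nonneg (by norm_num))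

theorem main (a : ℕ → ℤ)
    (hTZ : ∃ c C x₀ : ℝ, 0 < c ∧ ∀ x : ℝ, x₀ ≤ x → ∀ l : ℕ, l.Prime →
      (l : ℝ) * Real.log l ≤ c * Real.log x → ∀ r : ℤ,
      (#((range (⌊x⌋₊ + 1)).filter fun p => p.Prime ∧ (l : ℤ) ∣ a p - r ∧
        jacobiSym (a p ^ 2 - 4 * (p : ℤ)) l = 1) : ℝ) ≤ C * (x / (l * Real.log x))) :
    ∃ C : ℝ, ∀ᶠ x : ℝ in atTop, ∀ A : ℤ,
      (#((range (⌊x⌋₊ + 1)).filter fun p => p.Prime ∧ a p = A) : ℝ)
        ≤ C * (x * Real.log (Real.log x) / (Real.log x) ^ 2) := by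
  obtain ⟨c₀, C₀, x₀, hc₀, hTZ⟩ := hTZ
  set c := min c₀ 1 with hc
  have hcpos : 0 < c := lt_min hc₀ one_pos
  have hc1 : c ≤ 1 := min_le_right _ _
  set C := max C₀ 0 with hC
  have hCnn : 0 ≤ C := le_max_right _ _
  have hlog : Tendsto Real.log atTop atTop := Real.tendsto_log_atTop
  have hloglog : Tendsto (fun x => Real.log (Real.log x)) atTop atTop := hlog.comp hlog
  -- the size of `Y`
  have hYsq : ∀ᶠ u : ℝ in atTop, √u ≤ c * u / Real.log u := by
    filter_upwards [log_le_sqrt hcpos, eventually_gt_atTop (1 : ℝ)] with u h1 h2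
    have h3 : 0 < Real.log u := Real.log_pos h2
    rw [le_div_iff₀ h3]
    have h4 : √u * √u = u := Real.mul_self_sqrt (by linarith)
    nlinarith [Real.sqrt_nonneg u]
  have hYtend : Tendsto (fun u : ℝ => c * u / Real.log u) atTop atTop :=
    tendsto_atTop_mono' _ hYsq Real.tendsto_sqrt_atTop
  have hpow : ∀ᶠ n : ℕ in atTop, (n : ℝ) ^ 8 * (13 / 14 : ℝ) ^ n ≤ 1 / 4 := by
    have h := tendsto_pow_const_mul_const_pow_of_abs_lt_one 8
      (show |(13 / 14 : ℝ)| < 1 by rw [abs_of_pos] <;> norm_num)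
    exact (h.eventually (gt_mem_nhds (show (0 : ℝ) < 1 / 4 by norm_num))).mono fun n hn => hn.le
  have hcard : Tendsto (fun Y : ℝ => #(PP Y)) atTop atTop := by
    rw [← tendsto_natCast_atTop_iff (R := ℝ)]
    exact tendsto_atTop_mono' _ card_PP Real.tendsto_sqrt_atTop
  refine ⟨32 * C / c + 1, ?_⟩
  have e1 := hlog.eventually hYsq
  have e2 := (hYtend.comp hlog).eventually card_PP
  have e3 := ((hcard.comp hYtend).comp hlog).eventually hpow
  have e4 := (hYtend.comp hlog).eventually (eventually_ge_atTop (120 : ℝ))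
  have e5 := hloglog.eventually (eventually_ge_atTop (2 : ℝ))
  have e6 := hlog.eventually (eventually_gt_atTop (1 : ℝ))
  filter_upwards [e1, e2, e3, e4, e5, e6, eventually_ge_atTop x₀, eventually_ge_atTop (1 : ℝ)]
    with x h1 h2 h3 h4 h5 h6 h7 h8 A
  simp only [Function.comp_apply] at h1 h2 h3 h4 h5 h6
  set u := Real.log x with hu
  set w := Real.log u with hw
  set Y := c * u / w with hY
  have hupos : 0 < u := by linarith
  have hwpos : 0 < w := by linarith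
  have hYpos : 0 < Y := by linarith
  have hYu : Y ≤ u := by
    rw [hY, div_le_iff₀ hwpos]
    nlinarith
  have hlogY : Real.log Y ≤ w := Real.log_le_log hYpos hYu
  have hPne : (PP Y).Nonempty := by
    rw [← Finset.card_pos]
    have : (0 : ℝ) < #(PP Y) := lt_of_lt_of_le (Real.sqrt_pos.mpr hYpos) h2
    exact_mod_cast this
  have hcu : c * u = Y * w := by rw [hY]; field_simp
  have hstep := finite_step a A (⌊x⌋₊ + 1) (PP Y) hPne (C * (8 * x / (Y * u))) (by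
    intro l hl
    rw [mem_PP hYpos.le] at hl
    have hlpos : (0 : ℝ) < l := by exact_mod_cast hl.1.pos
    have h9 : (l : ℝ) * Real.log l ≤ c₀ * u := by
      have h10 : Real.log l ≤ w := (Real.log_le_log hlpos hl.2.2).trans hlogY
      have h11 : (l : ℝ) * Real.log l ≤ Y * w :=
        mul_le_mul hl.2.2 h10 (Real.log_natCast_nonneg l) hYpos.le
      rw [← hcu] at h11
      exact h11.trans (mul_le_mul_of_nonneg_right (min_le_left _ _) hupos.le)
    refine (hTZ x h7 l hl.1 h9 A).trans ?_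
    have h12 : x / (l * u) ≤ 8 * x / (Y * u) := by
      rw [div_le_div_iff₀ (by positivity) (by positivity)]
      have h13 : Y ≤ 8 * l := by linarith [hl.2.1]
      have h14 : 0 ≤ x * u := by positivity
      nlinarith
    calc C₀ * (x / (l * u)) ≤ C * (x / (l * u)) :=
          mul_le_mul_of_nonneg_right (le_max_left _ _) (by positivity)
      _ ≤ C * (8 * x / (Y * u)) := mul_le_mul_of_nonneg_left h12 hCnn)
  refine hstep.trans ?_
  have hX : (((⌊x⌋₊ + 1 : ℕ)) : ℝ) ≤ 2 * x := by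
    push_cast
    have := Nat.floor_le (show (0 : ℝ) ≤ x by linarith)
    linarith
  have hprod : ∏ l ∈ PP Y, l ≤ ⌊x⌋₊ + 1 := by
    have h9 := prod_PP_le hYpos.le
    have h10 : Real.exp (Y * Real.log 4) ≤ x := by
      rw [← Real.exp_log (show (0 : ℝ) < x by linarith)]
      apply Real.exp_le_exp.mpr
      have h11 : Real.log 4 ≤ 2 := by
        have : Real.log 4 = 2 * Real.log 2 := by
          rw [show (4 : ℝ) = 2 ^ 2 by norm_num, Real.log_pow]; norm_num
        rw [this]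
        linarith [Real.log_two_lt_d9]
      have h12 : Y * Real.log 4 ≤ Y * w := mul_le_mul_of_nonneg_left (h11.trans h5) hYpos.le
      rw [← hcu] at h12
      nlinarith
    have h11 : ((∏ l ∈ PP Y, l : ℕ) : ℝ) ≤ x := h9.trans h10
    exact (Nat.le_floor h11).trans (Nat.le_succ _)
  have hbad := card_bad_le (PP Y) (by
    intro l hl
    rw [mem_PP hYpos.le] at hl
    refine ⟨hl.1, ?_⟩
    have : (15 : ℝ) < l := by linarith [hl.2.1]
    exact_mod_cast this.le) A (⌊x⌋₊ + 1) hprod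
  set k := #(PP Y) with hk
  have hku : u ^ 2 ≤ (k : ℝ) ^ 8 := by
    have h9 : Y ≤ (k : ℝ) ^ 2 := by
      have := pow_le_pow_left₀ (Real.sqrt_nonneg Y) h2 2
      rwa [Real.sq_sqrt hYpos.le] at this
    have h10 : u ≤ Y ^ 2 := by
      have := pow_le_pow_left₀ (Real.sqrt_nonneg u) h1 2
      rwa [Real.sq_sqrt hupos.le] at this
    calc u ^ 2 ≤ (Y ^ 2) ^ 2 := pow_le_pow_left₀ hupos.le h10 2
      _ = Y ^ 4 := by ring
      _ ≤ ((k : ℝ) ^ 2) ^ 4 := pow_le_pow_left₀ hYpos.le h9 4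
      _ = (k : ℝ) ^ 8 := by ring
  have hbad2 : (#((range (⌊x⌋₊ + 1)).filter fun n => 4 * #(splitSet (PP Y) A n) < k) : ℝ)
      ≤ x * w / u ^ 2 := by
    refine hbad.trans ?_
    rw [le_div_iff₀ (by positivity)]
    have h9 : u ^ 2 * (13 / 14 : ℝ) ^ k ≤ 1 / 4 :=
      (mul_le_mul_of_nonneg_right hku (by positivity)).trans h3
    calc 2 * ((⌊x⌋₊ + 1 : ℕ) : ℝ) * (13 / 14 : ℝ) ^ k * u ^ 2
        = 2 * ((⌊x⌋₊ + 1 : ℕ) : ℝ) * (u ^ 2 * (13 / 14 : ℝ) ^ k) := by ring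
      _ ≤ 2 * (2 * x) * (1 / 4) := by
          refine mul_le_mul (by linarith) h9 (by positivity) (by positivity)
      _ ≤ x * w := by nlinarith
  have hfin : 4 * (C * (8 * x / (Y * u))) = 32 * C / c * (x * w / u ^ 2) := by
    rw [hY]
    field_simp
    ring
  rw [hfin]
  linarith

end MP631487
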