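import Mathlib

/-!
# Sums of products of periodic functions with coprime periods
-/

open Finset

namespace MP631487

lemma sum_range_periodic {f : ℕ → ℝ} {m : ℕ} (hf : Function.Periodic f m) (K : ℕ) :
    ∑ n ∈ range (m * K), f n = K * ∑ n ∈ range m, f n := by
  induction K with
  | zero => simp
  | succ K ih =>
    rw [Nat.mul_succ, Finset.sum_range_add, ih]
    have h : ∀ n ∈ range m, f (m * K + n) = f n := by
      intro n _
      have h1 : f (n + K * m) = f n := hf.nat_mul K n
      rw [← h1]
      congr 1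
      ring
    rw [Finset.sum_congr rfl h]
    push_cast
    ring

lemma sum_range_le {f : ℕ → ℝ} {m : ℕ} (hm : 0 < m) (hf : Function.Periodic f m)
    (h0 : ∀ n, 0 ≤ f n) (X : ℕ) :
    ∑ n ∈ range X, f n ≤ ((X : ℝ) / m + 1) * ∑ n ∈ range m, f n := by
  have h1 : X ≤ m * (X / m + 1) := by
    have := Nat.div_add_mod X m
    have h2 := Nat.mod_lt X hm
    rw [Nat.mul_add, Nat.mul_one]
    omega
  have h2 : ∑ n ∈ range X, f n ≤ ∑ n ∈ range (m * (X / m + 1)), f n :=
    Finset.sum_le_sum_of_subset_of_nonneg (Finset.range_subset_range.mpr h1) fun n _ _ => h0 n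
  refine h2.trans ?_
  rw [sum_range_periodic hf]
  refine mul_le_mul_of_nonneg_right ?_ (Finset.sum_nonneg fun n _ => h0 n)
  push_cast
  have := @Nat.cast_div_le ℝ _ _ _ X m
  linarith

lemma sum_mul_periodic {f g : ℕ → ℝ} {m k : ℕ} (hm : 0 < m) (hk : 0 < k)
    (hf : Function.Periodic f m) (hg : Function.Periodic g k) (hc : Nat.Coprime m k) :
    ∑ n ∈ range (m * k), f n * g n = (∑ n ∈ range m, f n) * ∑ n ∈ range k, g n := by
  rw [Finset.sum_mul_sum, ← Finset.sum_product']
  have hinj : Set.InjOn (fun n : ℕ => ((n % m, n % k) : ℕ × ℕ)) (range (m * k) : Set ℕ) := by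
    intro a ha b hb hab
    simp only [Prod.mk.injEq] at hab
    rw [Finset.mem_coe, mem_range] at ha hb
    have h := (Nat.modEq_and_modEq_iff_modEq_mul hc).mp ⟨hab.1, hab.2⟩
    have h' : a % (m * k) = b % (m * k) := h
    rwa [Nat.mod_eq_of_lt ha, Nat.mod_eq_of_lt hb] at h'
  have himg : (range (m * k)).image (fun n : ℕ => ((n % m, n % k) : ℕ × ℕ))
      = range m ×ˢ range k := by
    apply Finset.eq_of_subset_of_card_le
    · intro x hx
      rw [mem_image] at hx
      obtain ⟨n, _, rfl⟩ := hx
      rw [mem_product, mem_range, mem_range]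
      exact ⟨Nat.mod_lt _ hm, Nat.mod_lt _ hk⟩
    · rw [card_product, card_range, card_range, Finset.card_image_of_injOn hinj, card_range]
  rw [← himg, Finset.sum_image hinj]
  refine Finset.sum_congr rfl fun n _ => ?_
  simp only
  rw [hf.map_mod_nat n, hg.map_mod_nat n]

lemma sum_prod_periodic (G : ℕ → ℕ → ℝ) (hG : ∀ l, Function.Periodic (G l) l) (P : Finset ℕ)
    (hP : ∀ l ∈ P, l.Prime) :
    ∑ n ∈ range (∏ l ∈ P, l), ∏ l ∈ P, G l n = ∏ l ∈ P, ∑ n ∈ range l, G l n := by
  classical
  induction P using Finset.induction_on with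
  | empty => simp
  | insert q P hq ih =>
    have hP' : ∀ l ∈ P, l.Prime := fun l hl => hP l (mem_insert_of_mem hl)
    have hqp : q.Prime := hP q (mem_insert_self _ _)
    simp only [Finset.prod_insert hq]
    rw [← ih hP']
    have hper : Function.Periodic (fun n => ∏ l ∈ P, G l n) (∏ l ∈ P, l) := by
      intro n
      refine Finset.prod_congr rfl fun l hl => ?_
      obtain ⟨c, hc⟩ := Finset.dvd_prod_of_mem (fun l : ℕ => l) hl
      have h1 : G l (n + c * l) = G l n := (hG l).nat_mul c n
      rw [← h1]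
      congr 1
      rw [hc]
      ring
    have hcop : Nat.Coprime q (∏ l ∈ P, l) := by
      apply Nat.Coprime.prod_right
      intro l hl
      rw [Nat.coprime_primes hqp (hP' l hl)]
      rintro rfl
      exact hq hl
    exact sum_mul_periodic hqp.pos (Finset.prod_pos fun l hl => (hP' l hl).pos) (hG q) hper hcop

end MP631487
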