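import Pool.Agent.Lib.MP_631487_nt.Period

/-!
# The number of integers with few split primes
-/

open Finset

namespace MP631487

/-- weight at the prime `l`: `1` if `A ^ 2 - 4 n` is a non-zero square modulo `l`, else `4` -/
noncomputable def wt (A : ℤ) (l n : ℕ) : ℝ :=
  if jacobiSym (A ^ 2 - 4 * (n : ℤ)) l = 1 then 1 else 4

lemma wt_periodic (A : ℤ) (l : ℕ) : Function.Periodic (wt A l) l := by
  intro n
  unfold wt
  have h : jacobiSym (A ^ 2 - 4 * ((n + l : ℕ) : ℤ)) l = jacobiSym (A ^ 2 - 4 * (n : ℤ)) l := by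
    apply jacobiSym.mod_left'
    apply Int.ModEq.symm
    rw [Int.modEq_iff_dvd]
    exact ⟨-4, by push_cast; ring⟩
  rw [h]

lemma wt_pos (A : ℤ) (l n : ℕ) : 0 < wt A l n := by
  unfold wt
  split_ifs <;> norm_num

lemma sum_wt (A : ℤ) {l : ℕ} (hl : l.Prime) (h2 : l ≠ 2) :
    ∑ n ∈ range l, wt A l n = (5 * l + 3) / 2 := by
  haveI : Fact l.Prime := ⟨hl⟩
  have hodd : ringChar (ZMod l) ≠ 2 := by rwa [ZMod.ringChar_zmod_n]
  let F : ZMod l → ℝ := fun u => if quadraticChar (ZMod l) u = 1 then 1 else 4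
  have h4 : (4 : ZMod l) ≠ 0 := by
    have h2' : ((2 : ℕ) : ZMod l) ≠ 0 := by
      rw [Ne, ZMod.natCast_eq_zero_iff]
      intro h
      exact h2 ((Nat.prime_dvd_prime_iff_eq hl Nat.prime_two).mp h)
    have : (4 : ZMod l) = ((2 : ℕ) : ZMod l) * ((2 : ℕ) : ZMod l) := by norm_num
    rw [this]
    exact mul_ne_zero h2' h2'
  have h1 : ∀ n : ℕ, wt A l n = F ((A : ZMod l) ^ 2 - 4 * (n : ZMod l)) := by
    intro n
    have hj : jacobiSym (A ^ 2 - 4 * (n : ℤ)) l
        = quadraticChar (ZMod l) ((A : ZMod l) ^ 2 - 4 * (n : ZMod l)) := by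
      rw [← jacobiSym.legendreSym.to_jacobiSym, legendreSym]
      congr 1
      push_cast
      ring
    simp only [wt, F, hj]
  have h3 : ∑ n ∈ range l, wt A l n = ∑ z : ZMod l, F ((A : ZMod l) ^ 2 - 4 * z) := by
    rw [Finset.sum_congr rfl fun n _ => h1 n]
    refine Finset.sum_bij' (fun n _ => (n : ZMod l)) (fun z _ => z.val) ?_ ?_ ?_ ?_ ?_
    · intro n _; exact mem_univ _
    · intro z _; exact mem_range.mpr (ZMod.val_lt z)
    · intro n hn; exact ZMod.val_cast_of_lt (mem_range.mp hn)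
    · intro z _; exact ZMod.natCast_zmod_val z
    · intro n _; rfl
  have h5 : ∑ z : ZMod l, F ((A : ZMod l) ^ 2 - 4 * z) = ∑ u : ZMod l, F u := by
    apply Fintype.sum_bijective (fun z : ZMod l => (A : ZMod l) ^ 2 - 4 * z)
    · constructor
      · intro a b hab
        simp only [sub_right_inj] at hab
        exact mul_left_cancel₀ h4 hab
      · intro u
        refine ⟨((A : ZMod l) ^ 2 - u) / 4, ?_⟩
        field_simp
        ring
    · intro z; rfl
  have h6 : ∀ u : ZMod l, F u = 4 - 3 / 2 * ((quadraticChar (ZMod l) u : ℤ) : ℝ)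
      - 3 / 2 * (if u = 0 then 0 else 1) := by
    intro u
    by_cases hu : u = 0
    · subst hu
      simp [F]
    · rcases quadraticChar_dichotomy hu with h | h
      · simp only [F, h, if_true, if_neg hu]
        norm_num
      · simp only [F, h, if_neg hu]
        norm_num
  have h7 : ∑ u : ZMod l, ((quadraticChar (ZMod l) u : ℤ) : ℝ) = 0 := by
    rw [← Int.cast_sum, quadraticChar_sum_zero hodd, Int.cast_zero]
  have h8 : ∑ u : ZMod l, (if u = 0 then (0 : ℝ) else 1) = l - 1 := by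
    have : ∀ u : ZMod l, (if u = 0 then (0 : ℝ) else 1) = 1 - (if u = 0 then 1 else 0) := by
      intro u; split_ifs <;> norm_num
    rw [Finset.sum_congr rfl fun u _ => this u, Finset.sum_sub_distrib,
      Finset.sum_ite_eq' univ (0 : ZMod l), if_pos (mem_univ _)]
    simp [ZMod.card]
  rw [h3, h5, Finset.sum_congr rfl fun u _ => h6 u, Finset.sum_sub_distrib,
    Finset.sum_sub_distrib, ← Finset.mul_sum, ← Finset.mul_sum, h7, h8]
  simp [ZMod.card]
  ring

/-- the primes of `P` at which `A ^ 2 - 4 n` is a non-zero square -/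
def splitSet (P : Finset ℕ) (A : ℤ) (n : ℕ) : Finset ℕ :=
  P.filter fun l => jacobiSym (A ^ 2 - 4 * (n : ℤ)) l = 1

lemma prod_wt (P : Finset ℕ) (A : ℤ) (n : ℕ) :
    ∏ l ∈ P, wt A l n = 4 ^ (#P - #(splitSet P A n)) := by
  unfold wt splitSet
  rw [Finset.prod_ite, Finset.prod_const_one, one_mul, Finset.prod_const]
  congr 1
  have := Finset.card_filter_add_card_filter_not (s := P)
    (fun l => jacobiSym (A ^ 2 - 4 * (n : ℤ)) l = 1)
  omega

/-- Few integers have few split primes. -/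
theorem card_bad_le (P : Finset ℕ) (hP : ∀ l ∈ P, l.Prime ∧ 15 ≤ l) (A : ℤ) (X : ℕ)
    (hX : ∏ l ∈ P, l ≤ X) :
    (#((range X).filter fun n => 4 * #(splitSet P A n) < #P) : ℝ)
      ≤ 2 * X * (13 / 14 : ℝ) ^ #P := by
  set M := ∏ l ∈ P, l with hM
  have hMpos : 0 < M := Finset.prod_pos fun l hl => (hP l hl).1.pos
  have hMr : (0 : ℝ) < M := by exact_mod_cast hMpos
  have hper : Function.Periodic (fun n => ∏ l ∈ P, wt A l n) M := by
    intro n
    refine Finset.prod_congr rfl fun l hl => ?_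
    obtain ⟨c, hc⟩ := Finset.dvd_prod_of_mem (fun l : ℕ => l) hl
    have h1 : wt A l (n + c * l) = wt A l n := (wt_periodic A l).nat_mul c n
    rw [← h1]
    congr 1
    rw [hM, hc]
    ring
  have h1 := sum_range_le hMpos hper (fun n => (Finset.prod_pos fun l _ => wt_pos A l n).le) X
  have h2 : ∑ n ∈ range M, ∏ l ∈ P, wt A l n = ∏ l ∈ P, ((5 * l + 3) / 2 : ℝ) := by
    rw [hM, sum_prod_periodic (fun l => wt A l) (wt_periodic A) P fun l hl => (hP l hl).1]
    refine Finset.prod_congr rfl fun l hl => ?_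
    exact sum_wt A (hP l hl).1 (by have := (hP l hl).2; omega)
  have h3 : ∏ l ∈ P, ((5 * l + 3) / 2 : ℝ) ≤ M * (26 / 10 : ℝ) ^ #P := by
    have : (M : ℝ) * (26 / 10 : ℝ) ^ #P = ∏ l ∈ P, ((l : ℝ) * (26 / 10)) := by
      rw [Finset.prod_mul_distrib, Finset.prod_const, hM]
      push_cast
      rfl
    rw [this]
    refine Finset.prod_le_prod (fun l _ => by positivity) fun l hl => ?_
    have : (15 : ℝ) ≤ l := by exact_mod_cast (hP l hl).2
    linarith
  have h4 : ∑ n ∈ range X, ∏ l ∈ P, wt A l n ≤ 2 * X * (26 / 10 : ℝ) ^ #P := by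
    refine h1.trans ?_
    rw [h2]
    have hXr : (M : ℝ) ≤ X := by exact_mod_cast hX
    have h5 : ((X : ℝ) / M + 1) * ∏ l ∈ P, ((5 * l + 3) / 2 : ℝ)
        ≤ ((X : ℝ) / M + 1) * (M * (26 / 10 : ℝ) ^ #P) :=
      mul_le_mul_of_nonneg_left h3 (by positivity)
    refine h5.trans ?_
    have h6 : ((X : ℝ) / M + 1) * (M * (26 / 10 : ℝ) ^ #P)
        = (X + M) * (26 / 10 : ℝ) ^ #P := by
      field_simp
    rw [h6]
    refine mul_le_mul_of_nonneg_right ?_ (by positivity)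
    linarith
  have h7 : ∀ n, 4 * #(splitSet P A n) < #P → (28 / 10 : ℝ) ^ #P ≤ ∏ l ∈ P, wt A l n := by
    intro n hn
    rw [prod_wt]
    set u := #P - #(splitSet P A n) with hu
    have h8 : 3 * #P ≤ 4 * u := by omega
    have h9 : ((28 / 10 : ℝ) ^ #P) ^ 4 ≤ ((4 : ℝ) ^ u) ^ 4 := by
      calc ((28 / 10 : ℝ) ^ #P) ^ 4 = ((28 / 10 : ℝ) ^ 4) ^ #P := by
            rw [← pow_mul, ← pow_mul, mul_comm]
        _ ≤ (64 : ℝ) ^ #P := pow_le_pow_left₀ (by norm_num) (by norm_num) _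
        _ = (4 : ℝ) ^ (3 * #P) := by rw [pow_mul]; norm_num
        _ ≤ (4 : ℝ) ^ (4 * u) := pow_le_pow_right₀ (by norm_num) h8
        _ = ((4 : ℝ) ^ u) ^ 4 := by rw [← pow_mul, mul_comm]
    exact le_of_pow_le_pow_left₀ (by norm_num) (by positivity) h9
  set B := (range X).filter fun n => 4 * #(splitSet P A n) < #P with hB
  have h10 : (#B : ℝ) * (28 / 10 : ℝ) ^ #P ≤ 2 * X * (26 / 10 : ℝ) ^ #P := by
    refine le_trans ?_ h4
    calc (#B : ℝ) * (28 / 10 : ℝ) ^ #P = ∑ _n ∈ B, (28 / 10 : ℝ) ^ #P := by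
          rw [Finset.sum_const, nsmul_eq_mul]
      _ ≤ ∑ n ∈ B, ∏ l ∈ P, wt A l n :=
          Finset.sum_le_sum fun n hn => h7 n (mem_filter.mp hn).2
      _ ≤ ∑ n ∈ range X, ∏ l ∈ P, wt A l n :=
          Finset.sum_le_sum_of_subset_of_nonneg (filter_subset _ _)
            fun n _ _ => (Finset.prod_pos fun l _ => wt_pos A l n).le
  have h11 : (0 : ℝ) < (28 / 10 : ℝ) ^ #P := by positivity
  have h12 : (26 / 10 : ℝ) ^ #P = (13 / 14 : ℝ) ^ #P * (28 / 10 : ℝ) ^ #P := by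
    rw [← mul_pow]
    norm_num
  rw [h12, ← mul_assoc] at h10
  exact le_of_mul_le_mul_right h10 h11

end MP631487
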